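import Pool.Agent.CollatzNat.Final

/-!
# Natural density is a probability measure on the Collatz-invariant sets of integers
-/

set_option autoImplicit false

open Filter Topology

namespace Pool.Agent.Results.MP_d02c56_nt.InvariantDensity

/-- The Collatz map on the integers: `y / 2` for even `y` and `3 y + 1` for odd `y`. -/
def C (y : ℤ) : ℤ := if Even y then y / 2 else 3 * y + 1

/-- The set `S` of integers is invariant: `n` belongs to `S` if and only if `C n` does. -/
def Inv (S : Set ℤ) : Prop := ∀ n : ℤ, n ∈ S ↔ C n ∈ S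

/-- Every Collatz-invariant set `S` of integers has a natural density `δ S`; it is positive if `S`
contains a nonzero integer; and `δ` is countably additive on the invariant sets. -/
theorem result : ∃ δ : Set ℤ → ℝ,
    (∀ S : Set ℤ, Inv S →
      Tendsto (fun N : ℕ => ({n : ℤ | |n| ≤ N ∧ n ∈ S}.ncard : ℝ) / (2 * N + 1)) atTop (𝓝 (δ S)) ∧
      ((∃ a ∈ S, a ≠ 0) → 0 < δ S)) ∧
    (∀ S : ℕ → Set ℤ, (∀ i, Inv (S i)) → Pairwise (fun i j => Disjoint (S i) (S j)) →
      HasSum (fun i => δ (S i)) (δ (⋃ i, S i))) := by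
  obtain ⟨δ, h1, h2, h3, -⟩ := CollatzNat.densities
  exact ⟨δ, fun S hS => ⟨h1 S hS, h2 S hS⟩, fun S hS hd => h3 ℕ S hS hd⟩

end Pool.Agent.Results.MP_d02c56_nt.InvariantDensity
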