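import Pool.Agent.CYC.Joint

/-!
# Complexity of the parity words of cycles and of infinite trajectories (MP_d02c56_nt)

Partial answer to Q1: cycles and infinite trajectories of the Collatz map (and of `3x+k`) have
parity words of superlinear block complexity, and the cycles of the Collatz map have parity words
of large Lempel-Ziv complexity.
-/

set_option autoImplicit false

open Filter

namespace Pool.Agent.Results.MP_d02c56_nt.OrbitComplexity

/-- The map `y / 2` for even `y` and `3 y + k` for odd `y`; `C 1` is the Collatz map. -/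
def C (k y : ℤ) : ℤ := if Even y then y / 2 else 3 * y + k

/-- The parities of the `n` terms with the indices `i, ..., i + n - 1` of the trajectory of `x`. -/
def word (k x : ℤ) (n i : ℕ) : Fin n → ℤ := fun t => (C k)^[i + t] x % 2

/-- The number of different words of length `n` in the parities of the trajectory of `x` that start
at an index in `I`. -/
noncomputable def count (k x : ℤ) (n : ℕ) (I : Set ℕ) : ℕ := (word k x n '' I).ncard

/-- The cycles of the Collatz map. -/
def IsCycle (Z : Set ℤ) : Prop :=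
  ∃ y : ℤ, ∃ q : ℕ, 1 ≤ q ∧ (C 1)^[q] y = y ∧ Z = {x | ∃ t < q, x = (C 1)^[t] y}

/-- The first `N` letters of `u` are a product of `m` phrases (with the cutting points `p`), each of
which is a single letter or has an earlier occurrence in `u` (overlaps are allowed). -/
def Phrases (u : ℕ → ℤ) (N m : ℕ) : Prop :=
  ∃ p : ℕ → ℕ, p 0 = 0 ∧ p m = N ∧ ∀ j < m, p j < p (j + 1) ∧
    (p (j + 1) = p j + 1 ∨ ∃ s < p j, ∀ i, p j + i < p (j + 1) → u (s + i) = u (p j + i))

/-- The word of the first `N` parities of the trajectory of `x` differs at `e` places from a word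
over `{0, 1}` which is a product of `m` phrases, and `m + e ≤ K`. -/
def Compressible (k x : ℤ) (N K : ℕ) : Prop :=
  ∃ (u : ℕ → ℤ) (m : ℕ), (∀ i, u i = 0 ∨ u i = 1) ∧ Phrases u N m ∧
    m + ((Finset.range N).filter fun i => (C k)^[i] x % 2 ≠ u i).card ≤ K

theorem count_eq (k x : ℤ) (n : ℕ) (I : Set ℕ) :
    count k x n I = (SBT.blk (CLX.par k x) n '' I).ncard := by
  have h1 : word k x n = (fun f : Fin n → ℕ => fun t => (f t : ℤ)) ∘
      SBT.blk (CLX.par k x) n := by
    funext i t
    show (C k)^[i + t] x % 2 = ((if Even ((CLX.col k)^[i + t] x) then 0 else 1 : ℕ) : ℤ)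
    have h2 : C k = CLX.col k := rfl
    rw [h2]
    split_ifs with h
    · simpa using Int.even_iff.1 h
    · simpa using Int.not_even_iff.1 h
  unfold count
  rw [h1, Set.image_comp]
  refine Set.ncard_image_of_injective _ ?_
  intro f g hfg
  funext t
  have := congrFun hfg t
  simpa using this

theorem isCycle_iff (Z : Set ℤ) : IsCycle Z ↔ CYC.IsCycle Z := by
  unfold IsCycle CYC.IsCycle
  rw [CYC.C_eq_col]
  rfl

theorem par_cast (k x : ℤ) (i : ℕ) : (CLX.par k x i : ℤ) = (C k)^[i] x % 2 := by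
  show ((if Even ((CLX.col k)^[i] x) then 0 else 1 : ℕ) : ℤ) = (CLX.col k)^[i] x % 2
  split_ifs with h
  · simpa using (Int.even_iff.1 h).symm
  · simpa using (Int.not_even_iff.1 h).symm

theorem compressible_LZE (k x : ℤ) (N K : ℕ)
    (h : Compressible k x N K) : CLX.LZE (CLX.par k x) N K := by
  obtain ⟨u, m, h1, ⟨p, h2, h3, h4⟩, h5⟩ := h
  have hu : ∀ i, ((u i).toNat : ℤ) = u i := by
    intro i
    rcases h1 i with h | h <;> rw [h] <;> rfl
  refine ⟨fun i => (u i).toNat, m, p, ?_, ⟨h2, h3, ?_⟩, ?_⟩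
  · intro i
    show (u i).toNat < 2
    rcases h1 i with h | h <;> rw [h] <;> decide
  · intro j hj
    refine ⟨(h4 j hj).1, ?_⟩
    rcases (h4 j hj).2 with h | ⟨s, hs, h⟩
    · exact Or.inl h
    · refine Or.inr ⟨s, hs, fun i hi => ?_⟩
      show (u (s + i)).toNat = (u (p j + i)).toNat
      rw [h i hi]
  · refine le_trans (Nat.add_le_add_left (Finset.card_le_card ?_) m) h5
    intro i hi
    rw [Finset.mem_filter] at hi ⊢
    refine ⟨hi.1, fun he => hi.2 ?_⟩
    have h6 : (CLX.par k x i : ℤ) = ((u i).toNat : ℤ) := by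
      rw [par_cast, hu]
      exact he
    exact_mod_cast h6

/-- Let `k` be odd. (1) Few iterates with few words force a repetition: if the iterates with the
indices `0, ..., Λ n` are pairwise different, then more than `c n` different words of length `n`
start at the indices `0, ..., Λ n - 1`. (2) In the parities of an infinite trajectory the number of
words of length `n`, divided by `n`, tends to infinity, and for every `c` and all large `N` the
first `N` parities are not a product of `m` phrases up to `e` changes, `m + e ≤ c log N`. (3) For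
every `c` there is an `ε > 0` such that all but finitely many cycles `Z` of the Collatz map have
more than `c n` words of length `n`, for all `n` from `3 √|Z|` to `ε |Z|`; and the parity word of
`Z`, once around from an element of least absolute value, is not a product of `m` phrases up to `e`
changes, `m + e ≤ c log |Z|`. -/
theorem result :
    (∀ c κ : ℕ, ∃ Λ n₀ : ℕ, ∀ n ≥ n₀, ∀ k x : ℤ, Odd k → |k| ^ 16 ≤ 2 ^ n → |x| ≤ 2 ^ (κ * n) →
      (∀ i j, i < j → j ≤ Λ * n → (C k)^[i] x ≠ (C k)^[j] x) →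
      c * n < count k x n (Set.Iio (Λ * n))) ∧
    (∀ k x : ℤ, Odd k → (Set.range fun i => (C k)^[i] x).Infinite →
      Tendsto (fun n : ℕ => (count k x n Set.univ : ℝ) / n) atTop atTop ∧
      ∀ c : ℝ, ∀ᶠ N : ℕ in atTop, ∀ K : ℕ, Compressible k x N K → c * Real.log N < K) ∧
    (∀ c : ℕ, ∃ ε : ℝ, 0 < ε ∧ {Z : Set ℤ | IsCycle Z ∧ ∃ x ∈ Z, ∃ n : ℕ,
      3 * Real.sqrt Z.ncard ≤ n ∧ n ≤ ε * Z.ncard ∧ count 1 x n Set.univ ≤ c * n}.Finite) ∧
    ∀ c : ℝ, {Z : Set ℤ | IsCycle Z ∧ ∃ x ∈ Z, (∀ z ∈ Z, |x| ≤ |z|) ∧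
      ∃ K : ℕ, (K : ℝ) ≤ c * Real.log Z.ncard ∧ Compressible 1 x Z.ncard K}.Finite := by
  refine ⟨?_, ?_, ?_, ?_⟩
  · intro c κ
    obtain ⟨Λ, n₀, h⟩ := CLX.UFK_ c κ
    refine ⟨Λ, n₀, fun n hn k x hk hkn hxn hd => ?_⟩
    rw [count_eq]
    exact h n hn k x hk hkn hxn hd
  · intro k x hk h
    refine ⟨(CLX.UNB_ k x hk h).congr fun n => ?_, fun c => ?_⟩
    · rw [count_eq, Set.image_univ]
    · filter_upwards [CYC.infinite_LZE k x hk h c] with N hN K hK
      exact hN K (compressible_LZE k x N K hK)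
  · intro c
    obtain ⟨ε, hε, h⟩ := CYC.cycle_blocks c
    refine ⟨ε, hε, h.subset ?_⟩
    rintro Z ⟨hZ, x, hx, n, h1, h2, h3⟩
    refine ⟨(isCycle_iff Z).1 hZ, x, hx, n, h1, h2, ?_⟩
    rwa [count_eq, Set.image_univ] at h3
  · intro c
    refine (CYC.cycles_ c).subset ?_
    rintro Z ⟨hZ, x, hx, hmin, K, hK, hL⟩
    exact ⟨(isCycle_iff Z).1 hZ, x, hx, hmin, K, hK, compressible_LZE 1 x _ K hL⟩

end Pool.Agent.Results.MP_d02c56_nt.OrbitComplexity
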