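import Pool.Agent.CollatzPow.FinalH

/-!
# Collatz trajectories descend along a straight line, with a power saving
-/

set_option autoImplicit false

open Finset

namespace Pool.Agent.Results.MP_d02c56_nt.PowerDescent

/-- The Collatz map on the integers: `y / 2` for even `y` and `3 y + 1` for odd `y`. -/
def C (y : ℤ) : ℤ := if Even y then y / 2 else 3 * y + 1

/-- `T` is the first step at which the trajectory of `n` is in `[-M, M]`; and for all steps
`j ≤ k ≤ T`, the number `log |C^k(n)|` differs from `log |C^j(n)| - (k - j) * log (4 / 3) / 3` by at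
most `ε log |C^j(n)|`. -/
def Descends (ε : ℝ) (M : ℕ) (n : ℤ) (T : ℕ) : Prop :=
  (C^[T] n).natAbs ≤ M ∧ (∀ j < T, M < (C^[j] n).natAbs) ∧
  ∀ j k : ℕ, j ≤ k → k ≤ T →
    |Real.log (C^[k] n).natAbs - (Real.log (C^[j] n).natAbs - ((k : ℝ) - j) * Real.log (4 / 3) / 3)| ≤
      ε * Real.log (C^[j] n).natAbs

lemma C_eq : C = CollatzExp.C := rfl

lemma dev_eq (i : ℕ) (w : ℤ) : Real.log (CollatzExp.C^[i] w).natAbs -
    (Real.log w.natAbs - i * Real.log (4 / 3) / 3) = CollatzTime.Dev i w := by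
  have e4 : ∀ a : ℤ, |(a : ℝ)| = (a.natAbs : ℝ) := fun a => by rw [Nat.cast_natAbs, Int.cast_abs]
  unfold CollatzTime.Dev CollatzTime.kap
  rw [e4, e4, div_div_eq_mul_div]
  ring

lemma descends_of {ε : ℝ} (hε : 0 < ε) {M : ℕ} (hM : 1 ≤ M) (hlog : 4 / ε ≤ Real.log M) {n : ℤ}
    (hb : ¬ CollatzPow.HBad (ε / 2) M n) : ∃ T, Descends ε M n T := by
  have e1 : ∀ a : ℤ, |a| = (a.natAbs : ℤ) := fun a => Int.abs_eq_natAbs a
  have e4 : ∀ a : ℤ, |(a : ℝ)| = (a.natAbs : ℝ) := fun a => by rw [Nat.cast_natAbs, Int.cast_abs]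
  have hMr : (0 : ℝ) < M := by exact_mod_cast hM
  -- deviations from a point before the entrance
  have hdev : ∀ i k : ℕ, (∀ l ≤ i + k, M < (CollatzExp.C^[l] n).natAbs) →
      |CollatzTime.Dev k (CollatzExp.C^[i] n)| ≤ ε / 2 * Real.log (CollatzExp.C^[i] n).natAbs := by
    intro i k hk
    by_contra hcon
    push Not at hcon
    refine hb ⟨i, fun l hl => ?_, k, fun j hj => ?_, ?_⟩
    · rw [e1]
      exact_mod_cast hk l (by omega)
    · rw [← Function.iterate_add_apply, e1]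
      exact_mod_cast hk (j + i) (by omega)
    · rw [e4]
      exact hcon
  have hex : ∃ j, (CollatzExp.C^[j] n).natAbs ≤ M := by
    by_contra hcon
    push Not at hcon
    have hkap := CollatzTime.kap_pos
    obtain ⟨k, hk⟩ := exists_nat_gt ((1 + ε / 2) * Real.log n.natAbs * CollatzTime.kap)
    have h1 := (abs_le.1 (hdev 0 k (fun j _ => hcon j))).2
    rw [Function.iterate_zero, id_eq] at h1
    unfold CollatzTime.Dev at h1
    rw [e4, e4] at h1
    have h2 : (1 + ε / 2) * Real.log n.natAbs < k / CollatzTime.kap := by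
      rw [lt_div_iff₀ hkap]
      exact hk
    have h3 : 0 ≤ Real.log (CollatzExp.C^[k] n).natAbs := Real.log_natCast_nonneg _
    linarith
  classical
  obtain ⟨T, hT⟩ : ∃ T, T = Nat.find hex := ⟨_, rfl⟩
  have hT1 : (CollatzExp.C^[T] n).natAbs ≤ M := hT ▸ Nat.find_spec hex
  have hT2 : ∀ j < T, M < (CollatzExp.C^[j] n).natAbs := by
    intro j hj
    exact not_le.1 (Nat.find_min hex (hT ▸ hj))
  refine ⟨T, hT1, hT2, fun j k hjk hk => ?_⟩
  obtain ⟨i, rfl⟩ : ∃ i, k = i + j := ⟨k - j, by omega⟩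
  have hsub : (((i + j : ℕ) : ℝ) - j) = i := by push_cast; ring
  rw [C_eq, hsub, Function.iterate_add_apply, dev_eq]
  obtain ⟨w, hw⟩ : ∃ w, w = CollatzExp.C^[j] n := ⟨_, rfl⟩
  rw [← hw]
  have h0 : 0 ≤ ε * Real.log w.natAbs := mul_nonneg hε.le (Real.log_natCast_nonneg _)
  rcases Nat.eq_zero_or_pos i with hi | hi
  · subst hi
    rw [CollatzTime.Dev_zero, abs_zero]
    exact h0
  have hjT : j < T := by omega
  have hMw : M < w.natAbs := hw ▸ hT2 j hjT
  have hlogw : 4 / ε ≤ Real.log w.natAbs := by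
    refine hlog.trans (Real.log_le_log hMr ?_)
    exact_mod_cast hMw.le
  have hw4 : 4 ≤ ε * Real.log w.natAbs := by
    rw [div_le_iff₀ hε] at hlogw
    linarith
  rcases Nat.lt_or_ge (i + j) T with h | h
  · have h1 := hdev j i (fun l hl => hT2 l (by omega))
    rw [← hw] at h1
    linarith
  · obtain ⟨s, rfl⟩ : ∃ s, i = s + 1 := ⟨i - 1, by omega⟩
    have h1 := hdev j s (fun l hl => hT2 l (by omega))
    rw [← hw] at h1
    have hne : CollatzExp.C^[s] w ≠ 0 := by
      intro h2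
      have h3 := hT2 (s + j) (by omega)
      rw [Function.iterate_add_apply, ← hw, h2] at h3
      simp at h3
    have h2 := CollatzTime.tr_dev_succ s w hne
    have h3 := abs_add_le (CollatzTime.Dev (s + 1) w - CollatzTime.Dev s w) (CollatzTime.Dev s w)
    rw [sub_add_cancel] at h3
    linarith

/-- For every `ε > 0` there are `K, c > 0` such that for all `M, N ≥ 1` at most `K * M ^ (-c) * N` of the
integers `n` with `|n| ≤ N` have a trajectory that does not descend along the straight line into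
`[-M, M]`. -/
theorem result (ε : ℝ) (hε : 0 < ε) : ∃ K c : ℝ, 0 < K ∧ 0 < c ∧ ∀ M N : ℕ, 1 ≤ M → 1 ≤ N →
    ({n : ℤ | n.natAbs ≤ N ∧ ¬ ∃ T, Descends ε M n T}.ncard : ℝ) ≤ K * (M : ℝ) ^ (-c) * N := by
  classical
  obtain ⟨K, c, hK, hc, h⟩ := CollatzPow.hbad_power (ε := ε / 2) (by positivity)
  obtain ⟨M₁, hM₁⟩ := exists_nat_ge (Real.exp (4 / ε))
  refine ⟨K + 2 * (M₁ : ℝ) ^ c + 1, c, by positivity, hc, fun M N hM hN => ?_⟩
  have hM0 : (0 : ℝ) < M := by exact_mod_cast hM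
  have hN0 : (0 : ℝ) ≤ N := Nat.cast_nonneg N
  have hMc : 0 < (M : ℝ) ^ (-c) := Real.rpow_pos_of_pos hM0 _
  have hset : {n : ℤ | n.natAbs ≤ N ∧ ¬ ∃ T, Descends ε M n T}.ncard =
      ((Icc (-(N : ℤ)) N).filter (fun n => ¬ ∃ T, Descends ε M n T)).card := by
    rw [← Set.ncard_coe_finset]
    congr 1
    ext n
    rw [Set.mem_ofPred_eq, mem_coe, mem_filter, mem_Icc]
    refine and_congr ?_ Iff.rfl
    rw [← abs_le, Int.abs_eq_natAbs]
    exact_mod_cast Iff.rfl
  have hcnt : ({n : ℤ | n.natAbs ≤ N ∧ ¬ ∃ T, Descends ε M n T}.ncard : ℝ) =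
      CollatzLin.cnt (fun n => ¬ ∃ T, Descends ε M n T) N := by
    rw [hset]
    unfold CollatzLin.cnt
    congr 3
  rw [hcnt]
  have hK1 : 0 ≤ 2 * (M₁ : ℝ) ^ c := by positivity
  by_cases hML : 4 / ε ≤ Real.log M
  · have h1 : CollatzLin.cnt (fun n => ¬ ∃ T, Descends ε M n T) N ≤
        CollatzLin.cnt (CollatzPow.HBad (ε / 2) M) N := by
      refine CollatzLin.cnt_map id ?_ ?_
      · intro n hn h2
        refine ⟨?_, hn⟩
        by_contra h3
        exact h2 (descends_of hε hM hML h3)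
      · intro n m _ _ h
        exact h
    calc CollatzLin.cnt (fun n => ¬ ∃ T, Descends ε M n T) N ≤ K * (M : ℝ) ^ (-c) * N := h1.trans (h M N hM)
      _ ≤ (K + 2 * (M₁ : ℝ) ^ c + 1) * (M : ℝ) ^ (-c) * N :=
        mul_le_mul_of_nonneg_right (mul_le_mul_of_nonneg_right (by linarith) hMc.le) hN0
  · push Not at hML
    have h1 : CollatzLin.cnt (fun n => ¬ ∃ T, Descends ε M n T) N ≤ 2 * N := by
      refine CollatzPow.cnt_le_two ?_ N
      intro h2
      apply h2
      refine ⟨0, by simp, by simp, fun j k hjk hk => ?_⟩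
      have h0 : k = 0 := by omega
      have h0' : j = 0 := by omega
      subst h0 h0'
      simp
    have h2 : (M : ℝ) ≤ M₁ := by
      have h3 : (M : ℝ) < Real.exp (4 / ε) := by
        rwa [Real.log_lt_iff_lt_exp hM0] at hML
      linarith
    have h3 : 1 ≤ (M₁ : ℝ) ^ c * (M : ℝ) ^ (-c) := by
      have h4 : (M : ℝ) ^ c ≤ (M₁ : ℝ) ^ c := Real.rpow_le_rpow hM0.le h2 hc.le
      rw [Real.rpow_neg hM0.le, ← div_eq_mul_inv, one_le_div (by positivity)]
      exact h4
    calc CollatzLin.cnt (fun n => ¬ ∃ T, Descends ε M n T) N ≤ 2 * N := h1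
      _ = 2 * 1 * N := by ring
      _ ≤ 2 * ((M₁ : ℝ) ^ c * (M : ℝ) ^ (-c)) * N := by gcongr
      _ = (2 * (M₁ : ℝ) ^ c) * (M : ℝ) ^ (-c) * N := by ring
      _ ≤ (K + 2 * (M₁ : ℝ) ^ c + 1) * (M : ℝ) ^ (-c) * N :=
        mul_le_mul_of_nonneg_right (mul_le_mul_of_nonneg_right (by linarith) hMc.le) hN0

end Pool.Agent.Results.MP_d02c56_nt.PowerDescent
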