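import Pool.Agent.CollatzDens.Uniform
import Pool.Agent.CollatzNat.Final

/-!
# Every predecessor set has a natural density, uniformly positive
-/

set_option autoImplicit false

open Filter Topology

namespace Pool.Agent.Results.MP_d02c56_nt.PredecessorDensity

/-- The Collatz map on the integers: `y / 2` for even `y` and `3 y + 1` for odd `y`. -/
def C (y : ℤ) : ℤ := if Even y then y / 2 else 3 * y + 1

/-- The number of integers `n` with `|n| ≤ x` whose Collatz trajectory reaches `a`. -/
noncomputable def count (a : ℤ) (x : ℝ) : ℕ := {n : ℤ | |(n : ℝ)| ≤ x ∧ ∃ k : ℕ, C^[k] n = a}.ncard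

/-- There is an absolute constant `c > 0` such that, for every integer `a` not divisible by `3`, the
set of the integers whose trajectory reaches `a` has a natural density `d ≥ c / |a|`, and at least
`c x / |a|` of the integers `n` with `|n| ≤ x` belong to it, for all real `x ≥ |a|`. -/
theorem result : ∃ c : ℝ, 0 < c ∧ ∀ a : ℤ, ¬ (3 : ℤ) ∣ a →
    (∃ d : ℝ, c / |(a : ℝ)| ≤ d ∧
      Tendsto (fun N : ℕ => (count a N : ℝ) / (2 * N + 1)) atTop (𝓝 d)) ∧
    ∀ x : ℝ, |(a : ℝ)| ≤ x → c * x / |(a : ℝ)| ≤ count a x := by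
  obtain ⟨c, hc, h⟩ := CollatzOne.uniform_density
  refine ⟨c / 3, by positivity, fun a ha => ?_⟩
  have ha0 : a ≠ 0 := by rintro rfl; exact ha (dvd_zero 3)
  have habs : (0 : ℝ) < |(a : ℝ)| := by positivity
  have hcount : ∀ x : ℝ, |(a : ℝ)| ≤ x → c * x / |(a : ℝ)| ≤ count a x := fun x hx => h a ha x hx
  constructor
  · obtain ⟨d, hd⟩ := CollatzNat.pre_density a
    have heq : ∀ N : ℕ, count a N = {n : ℤ | |n| ≤ N ∧ ∃ k : ℕ, CollatzExp.C^[k] n = a}.ncard := by
      intro N
      unfold count
      congr 1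
      ext n
      have h1 : |(n : ℝ)| ≤ (N : ℝ) ↔ |n| ≤ (N : ℤ) := by
        rw [← Int.cast_abs]
        exact_mod_cast Iff.rfl
      exact and_congr h1 Iff.rfl
    have hd' : Tendsto (fun N : ℕ => (count a N : ℝ) / (2 * N + 1)) atTop (𝓝 d) := by
      refine hd.congr fun N => ?_
      rw [heq]
    refine ⟨d, ?_, hd'⟩
    refine ge_of_tendsto hd' ?_
    filter_upwards [eventually_ge_atTop (max 1 a.natAbs)] with N hN
    have hN1 : (1 : ℝ) ≤ N := by exact_mod_cast (le_max_left _ _).trans hN
    have hNa : |(a : ℝ)| ≤ N := by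
      have h2 : a.natAbs ≤ N := (le_max_right _ _).trans hN
      have h3 : |a| ≤ (N : ℤ) := by rw [Int.abs_eq_natAbs]; exact_mod_cast h2
      rw [← Int.cast_abs]
      exact_mod_cast h3
    have h4 := hcount N hNa
    rw [le_div_iff₀ (by positivity)]
    refine le_trans ?_ h4
    rw [div_mul_eq_mul_div]
    refine div_le_div_of_nonneg_right ?_ habs.le
    nlinarith
  · intro x hx
    refine le_trans ?_ (hcount x hx)
    refine div_le_div_of_nonneg_right ?_ habs.le
    have : 0 ≤ x := habs.le.trans hx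
    nlinarith

end Pool.Agent.Results.MP_d02c56_nt.PredecessorDensity
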